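import Pool.Agent.H99.Leaky.Main

set_option autoImplicit false

open MeasureTheory Filter Topology Set
open scoped ContDiff

namespace Pool.Agent.Results.MP_60200f_mp.Stability

open Pool.Agent.H99.Leaky

theorem result (α : ℝ) (hα : 0 < α) (γ : ℝ → ℝ) (hγ : ContDiff ℝ ∞ γ)
    (hγc : HasCompactSupport γ) :
    (∀ A : ℝ × ℝ → ℝ × ℝ, ContDiff ℝ ∞ A → HasCompactSupport (curl A) → (∃ p, curl A p ≠ 0) →
      ∃ ε₀ > 0, ∀ ε : ℝ, |ε| < ε₀ → spec α (curve γ ε) A ∅ ⊆ Ici (-(α ^ 2 / 4))) ∧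
    (∀ (Φ : ℝ) (x₀ : ℝ × ℝ), (∀ n : ℤ, Φ ≠ n) → x₀.2 ≠ 0 →
      ∃ ε₀ > 0, ∀ ε : ℝ, |ε| < ε₀ →
        spec α (curve γ ε) (abPotential Φ x₀) {x₀} ⊆ Ici (-(α ^ 2 / 4))) := by
  obtain ⟨a0, b0, M, G, h⟩ := exists_curv hγ.continuous hγc
  refine ⟨fun A hA _ hB => ?_, fun Φ x₀ hΦ hx₀ => ?_⟩
  · exact stability_of_hol h hα isClosed_empty hA.continuous.continuousOn (hol_reg h hA hB)
  · exact stability_of_hol h hα isClosed_singleton (continuousOn_abPotential Φ x₀)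
      (hol_ab h hΦ hx₀)

end Pool.Agent.Results.MP_60200f_mp.Stability
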